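import Pool.Agent.K3h50.MF.Data
import Pool.Agent.Y191.DimGe

/-!
Sections of multiples of `K + Δ` for linear systems with many powerful members whose map is not
generically finite, and pluricanonical forms along the fibres.
-/

set_option autoImplicit false

open FF Module Pool.Agent.W603.LV Pool.Agent.W602.GT Pool.Agent.W602.Cov Pool.Agent.W602.Cov.G
open Pool.Agent.W168.CG.PGR Pool.Agent.TH152.AC Pool.Agent.TH152.HY Pool.Agent.TH585.SV
open Pool.Agent.TH766.MC Pool.Agent.K3h50.MW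

namespace Pool.Agent.K3h50.MF

variable {d e k n q G p : ℕ} {K : Type} [Field K] [Algebra ℂ K]

/-- **The base.** -/
theorem core3 (hdk : d + k = n) (hG1 : 1 ≤ G) {β t : Fin q → ℚ}
    (ht0 : ∀ i, 0 ≤ t i) (hb : ∑ i, β i * t i = n + 1)
    {c s : ℝ} (hc : 0 ≤ c) (hs : bd d n c ≤ s)
    (hK : Algebra.trdeg ℂ K = (d + e : ℕ)) {V : Submodule ℂ K} (hV : Module.finrank ℂ V = n + 1)
    (hL : Algebra.trdeg ℂ (rf V) = d)
    {φ : Fin q → K} (hφ0 : ∀ i, φ i ≠ 0) (hφV : ∀ i, φ i ∈ V) (hβ : WtsV V φ β)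
    {A : Fin G → Finset (Fin q)} (hA : SprV V φ A c)
    {X : Set (Place ℂ K)} {δ : Place ℂ K → ℝ} (hδ : ∀ P ∈ X, 0 ≤ δ P)
    (h : Pow (d + e) V φ t X δ s) :
    ∃ (x : Fin (n + 1) → K) (σ : Fin (d + 1) → Fin (n + 1)) (u : Fin e → K)
      (Dt : Fin d → Derivation ℂ K K) (Du : Fin e → Derivation ℂ K K),
      Frame (fun j => x (σ j.succ)) u Dt Du ∧ x (σ 0) = 1 ∧ (∀ f ∈ rf V, Hz Du f) ∧
      (∀ j, x j ∈ rf V) ∧ AlgebraicIndependent ℂ (fun j : Fin d => x (σ j.succ)) ∧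
      ∃ W M : ℕ, 0 < W ∧ 0 < M ∧ ∀ (κ0 : ℝ) (t0 : ℕ), 0 ≤ κ0 → (∀ i, κ0 ≤ 1 - (t i : ℝ)) →
        ∃ f : K, f ≠ 0 ∧ ∀ P ∈ X, Divisorial (d + e) P → ∃ l : ℕ,
          (∀ j, Ge P (-(l : ℤ)) (x j)) ∧
          ∀ E : Fin d → Derivation ℂ K K, (∀ i, DerReg P (E i)) → ∃ z : ℤ,
            Ge P z ((mtx (fun j => x (σ j.succ)) E).det ^ (W * (M * t0)) * f) ∧
            (t0 : ℝ) * ((1 - bd d n c / s) * κ0 * l) - ((W * (M * t0) : ℕ) : ℝ) * δ P ≤ z := by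
  classical
  unfold bd at *
  have hspanV : Submodule.span ℂ (Set.range φ) = V := by
    apply le_antisymm
    · rw [Submodule.span_le]
      rintro _ ⟨i, rfl⟩
      exact hφV i
    · rw [← hA.1 ⟨0, hG1⟩]
      exact Submodule.span_mono (Set.image_subset_range _ _)
  obtain ⟨τ, ℓ, hliy, hℓy, hmemy, hfmy⟩ := exists_coords hV hspanV
  have hℓ0 : ∀ i, ℓ i ≠ 0 := by
    intro i h0
    apply hφ0 i
    rw [← hℓy i, h0, lf_zero]
  obtain ⟨y, hy⟩ : ∃ y : Fin (n + 1) → K, y = fun a => φ (τ a) := ⟨_, rfl⟩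
  rw [← hy] at hliy hℓy hmemy hfmy
  have hyV : ∀ j, y j ∈ V := fun j => by
    rw [hy]
    exact hφV _
  have hβℓ := wts_of hliy hℓy hmemy hβ
  obtain ⟨γ, hγ1, hγ2⟩ := spr_of hV hliy hℓy hmemy hA
  have hspan : Submodule.span ℂ (Set.range ℓ) = ⊤ := by
    rw [eq_top_iff, ← hγ2 ⟨0, hG1⟩]
    apply Submodule.span_mono
    rintro _ ⟨j, rfl⟩
    exact ⟨_, rfl⟩
  obtain ⟨x, σ, u, Dt, Du, hli, hσ, F, hx, hxy, hLHz, xL, hxL, hbas⟩ :=
    exists_frame_lin hliy hyV hfmy hL hK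
  have hy0 : y 0 ≠ 0 := hliy.ne_zero 0
  obtain ⟨ε, S, hlen, hW, hform⟩ := exists_data3 hℓ0 hli hdk σ hσ F hx γ hγ2
  have hlx : ∀ i, lf (ℓ i) x ≠ 0 := fun i => lf_ne_of_li hli (hℓ0 i)
  have hτ : ∀ j, x j = lf (ℓ (τ j)) x := by
    intro j
    have h1 := hxy (LinearMap.proj j)
    rw [lf_proj, lf_proj] at h1
    have h2 := hxy (ℓ (τ j))
    rw [hℓy, ← congrFun hy j, h1] at h2
    exact mul_right_cancel₀ hy0 h2
  have hind : AlgebraicIndependent ℂ (fun j : Fin d => x (σ j.succ)) := by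
    have h1 := hbas.1.map' (f := (rf V).val) (rf V).val.injective
    have h2 : (rf V).val ∘ (fun j : Fin d => xL (σ j.succ)) = fun j => x (σ j.succ) :=
      funext fun j => hxL _
    rw [h2] at h1
    exact h1
  obtain ⟨W, hWd⟩ : ∃ W, W = ∑ s, Pool.Agent.K3h50.MW.wt (S s) := ⟨_, rfl⟩
  have hW1 : 1 ≤ W := by
    rw [hWd]
    have h1 : ∑ _s : Fin G, 1 ≤ ∑ s, Pool.Agent.K3h50.MW.wt (S s) := Finset.sum_le_sum fun s _ => by
      unfold Pool.Agent.K3h50.MW.wt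
      omega
    rw [Finset.sum_const, Finset.card_univ, Fintype.card_fin, smul_eq_mul, mul_one] at h1
    omega
  obtain ⟨M, m, hM, hm⟩ := exists_den (fun i => β i * t i) fun i => mul_nonneg (hβ.1 i) (ht0 i)
  have hM' : (0 : ℝ) < M := by exact_mod_cast hM
  have hG' : (0 : ℝ) < G := by exact_mod_cast hG1
  have hcs : ∑ i, m i = (n + 1) * M := by
    have h1 : ∑ i, (m i : ℚ) / M = n + 1 := by
      rw [← hb]
      exact Finset.sum_congr rfl fun i _ => (hm i).symm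
    have hMQ : (M : ℚ) ≠ 0 := by
      have : M ≠ 0 := by omega
      exact_mod_cast this
    rw [← Finset.sum_div, div_eq_iff hMQ] at h1
    exact_mod_cast h1
  have hcR : ∀ i, (m i : ℝ) = M * ((β i : ℝ) * t i) := by
    intro i
    have h1 : (((β i * t i : ℚ)) : ℝ) = (m i : ℝ) / M := by
      rw [hm i]
      push_cast
      rfl
    push_cast at h1
    rw [h1]
    field_simp
  have hkr : (n : ℝ) - d = k := by
    rw [← hdk]
    push_cast
    ring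
  rw [hkr] at hs ⊢
  obtain ⟨B, hB⟩ : ∃ B : ℝ, B = ((k : ℝ) + 1) * (1 + c * k / 2) := ⟨_, rfl⟩
  rw [← hB] at hs ⊢
  have hBeq : ((k : ℝ) + 1) * (2 + c * k) = 2 * B := by
    rw [hB]
    field_simp
  have hBpos : 0 < B := by
    rw [hB]
    positivity
  have hspos : 0 < s := hBpos.trans_le hs
  obtain ⟨θ, hθ⟩ : ∃ θ : ℝ, θ = B / s := ⟨_, rfl⟩
  have hθ0 : 0 ≤ θ := by rw [hθ]; positivity
  have hθ1 : θ ≤ 1 := by rw [hθ, div_le_one hspos]; exact hs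
  rw [← hθ]
  have hq0 : 0 < q := by
    rcases Nat.eq_zero_or_pos q with h0 | h0
    · exfalso
      exact absurd (γ ⟨0, hG1⟩ (τ 0)).2 (by have := (τ 0).2; omega)
    · exact h0
  have ht0' : ∀ i, (0 : ℝ) ≤ t i := fun i => by exact_mod_cast ht0 i
  refine ⟨x, σ, u, Dt, Du, F, hσ, hLHz, fun j => by rw [← hxL]; exact Subtype.coe_prop _, hind,
    W, M, hW1, hM, fun κ0 t0 hκ0 hκ1 => ?_⟩
  have hκ01 : κ0 ≤ 1 := by
    have h1 := hκ1 ⟨0, hq0⟩
    have h2 := ht0' ⟨0, hq0⟩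
    linarith
  obtain ⟨hne, hchg⟩ := hform m M t0
  rw [← hWd] at hchg
  refine ⟨fm ℓ x γ ε S m M t0 Dt, hne, ?_⟩
  intro P hPX hPd
  -- the orders
  obtain ⟨i1, -, hmin⟩ := Finset.exists_min_image Finset.univ (fun i => P.ord (lf (ℓ i) y))
    ⟨⟨0, hq0⟩, Finset.mem_univ _⟩
  have hly : ∀ i, lf (ℓ i) y ≠ 0 := fun i => lf_ne_of_li hliy (hℓ0 i)
  obtain ⟨a, ha⟩ : ∃ a, a = P.ord (lf (ℓ i1) y) := ⟨_, rfl⟩
  obtain ⟨v, hvy⟩ : ∃ v : Fin q → ℕ, ∀ i, P.ord (lf (ℓ i) y) = a + v i := by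
    refine ⟨fun i => (P.ord (lf (ℓ i) y) - a).toNat, fun i => ?_⟩
    have h3 := hmin i (Finset.mem_univ i)
    rw [Int.toNat_of_nonneg (by rw [ha]; linarith)]
    ring
  have hge : ∀ ψ : Form n, lf ψ y = 0 ∨ a ≤ P.ord (lf ψ y) := by
    intro ψ
    refine ge_span P a (Set.range ℓ) y ?_ ψ (by rw [hspan]; trivial)
    rintro _ ⟨i, rfl⟩
    right
    rw [hvy i]
    have : (0 : ℤ) ≤ v i := by positivity
    linarith
  have hvs : Submodule.span ℂ (ℓ '' {i | v i ≠ 0}) ≠ ⊤ := by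
    intro htop
    have h3 := ge_span P (a + 1) (ℓ '' {i | v i ≠ 0}) y (by
      rintro _ ⟨i, hi, rfl⟩
      right
      rw [hvy i]
      have hi' : v i ≠ 0 := hi
      omega) (ℓ i1) (by rw [htop]; trivial)
    rcases h3 with h3 | h3
    · exact hly i1 h3
    · omega
  have hcond : ∀ i, v i ≠ 0 → s * (1 - δ P) ≤ (1 - (t i : ℝ)) * v i := by
    intro i hi
    have h1 := h P hPX hPd a (fun f hf => by
      obtain ⟨ψ, rfl⟩ := hfmy f hf
      exact hge ψ) ⟨lf (ℓ i1) y, hmemy _, hly i1, ha.symm⟩ i (by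
      rw [← hℓy i, hvy i]
      omega)
    rw [← hℓy i, hvy i] at h1
    have e1 : ((a + (v i : ℤ) - a : ℤ) : ℝ) = v i := by
      push_cast
      ring
    rwa [e1] at h1
  obtain ⟨κ, hκ⟩ : ∃ κ : ℝ, κ = (1 - θ) * κ0 := ⟨_, rfl⟩
  have hκnn : 0 ≤ κ := by
    rw [hκ]
    exact mul_nonneg (sub_nonneg.2 hθ1) hκ0
  have hκle : κ ≤ 1 := by
    rw [hκ]
    calc (1 - θ) * κ0 ≤ 1 * 1 := by
          apply mul_le_mul _ hκ01 hκ0 zero_le_one
          linarith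
      _ = 1 := one_mul 1
  have hcond2 : ∀ i, v i ≠ 0 → (t i : ℝ) * v i + κ * v i + max 0 (B * (1 - δ P)) ≤ v i := by
    intro i hi
    have h1 := hcond i hi
    have h2 := hκ1 i
    obtain ⟨w, hw⟩ : ∃ w : ℝ, w = 1 - (t i : ℝ) := ⟨_, rfl⟩
    rw [← hw] at h1 h2
    have hw0 : 0 ≤ w := hκ0.trans h2
    have hvi : (0 : ℝ) ≤ v i := by positivity
    have h4 : max 0 (B * (1 - δ P)) ≤ θ * (w * v i) := by
      apply max_le (by positivity)
      have h5 : B * (1 - δ P) = θ * (s * (1 - δ P)) := by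
        rw [hθ]
        field_simp
      rw [h5]
      exact mul_le_mul_of_nonneg_left h1 hθ0
    have h6 : κ * v i ≤ (1 - θ) * (w * v i) := by
      rw [hκ, mul_assoc]
      exact mul_le_mul_of_nonneg_left (mul_le_mul_of_nonneg_right h2 hvi) (sub_nonneg.2 hθ1)
    have h7 : (t i : ℝ) * v i = v i - w * v i := by
      rw [hw]
      ring
    linarith
  obtain ⟨a', ha'⟩ : ∃ a' : ℤ, a' = a - P.ord (y 0) := ⟨_, rfl⟩
  have hv : ∀ i, P.ord (lf (ℓ i) x) = a' + v i := by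
    intro i
    have h1 := hvy i
    rw [hxy (ℓ i), P.ord_mul (hlx i) hy0] at h1
    rw [ha']
    linarith
  refine ⟨v (τ (σ 0)), fun j => ?_, fun E hE => ?_⟩
  · right
    have h1 : P.ord (x (σ 0)) = 0 := by
      rw [hσ]
      exact P.ord_one
    rw [hτ (σ 0), hv] at h1
    rw [hτ j, hv]
    have : (0 : ℤ) ≤ v (τ j) := by positivity
    linarith
  · obtain ⟨z, hz1, hz2⟩ := fm_ord hlx hspan hℓ0 hG1 γ hc hγ1 ε S hlen hW hM hcs hβℓ ht0' hcR
      t0 hE hv hvs (hδ P hPX) hκnn hκle hBeq.le hcond2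
    rw [hchg E] at hz1
    refine ⟨z, hz1, ?_⟩
    have h1 := hz2 (τ (σ 0))
    rw [← hWd] at h1
    refine le_trans ?_ h1
    have hvi : (0 : ℝ) ≤ v (τ (σ 0)) := by positivity
    have h2 : (W : ℝ) * (M * (t0 : ℝ)) = ((W * (M * t0) : ℕ) : ℝ) := by
      push_cast
      ring
    rw [h2, ← hκ]
    have h3 : (t0 : ℝ) ≤ G * M * (t0 : ℝ) := by
      have h4 : 1 * t0 ≤ G * M * t0 := Nat.mul_le_mul_right _ (Nat.mul_pos hG1 hM)
      rw [one_mul] at h4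
      exact_mod_cast h4
    have h7 : (t0 : ℝ) * (κ * v (τ (σ 0))) ≤ G * M * (t0 : ℝ) * (κ * v (τ (σ 0))) :=
      mul_le_mul_of_nonneg_right h3 (mul_nonneg hκnn hvi)
    linarith

end Pool.Agent.K3h50.MF
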