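import Pool.Agent.K3h50.MW.Asm
import Pool.Agent.TH585.SV.Fib9

/-!
Products of generalised Wronskians for linear systems whose map is not generically finite: the
lengths of the words and the transformation of the form.
-/

set_option autoImplicit false

open FF Module Pool.Agent.W603.LV Pool.Agent.W602.GT Pool.Agent.W602.Cov Pool.Agent.W602.Cov.G
open Pool.Agent.W168.CG.PGR Pool.Agent.TH152.AC Pool.Agent.TH152.HY Pool.Agent.TH585.SV
open Pool.Agent.TH766.MC Pool.Agent.K3h50.MW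

namespace Pool.Agent.K3h50.MF

variable {d e k n q G p : ℕ} {K : Type} [Field K] [Algebra ℂ K]

theorem V_top3 (ε : Fin (d + 1) ⊕ Fin k ≃ Fin (n + 1)) {D : Fin d → Derivation ℂ K K}
    {g : Fin q → K} (hg : ∀ i, g i ≠ 0) {I0 : Fin (d + 1) → Fin q}
    (hI : bw D (fun j => g (I0 j)) ≠ 0) {x : Fin (n + 1) → K}
    (htop : ∀ k, x ∈ V D g x k → (∀ l, ∀ y ∈ V D g x k, (fun j => D l (y j)) ∈ V D g x k) →
      V D g x k = ⊤)
    (hblk : LinearIndependent K (blk D x)) : V D g x (k + 2) = ⊤ := by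
  classical
  have hcard : d + k = n := by
    have := Fintype.card_congr ε
    simp only [Fintype.card_sum, Fintype.card_fin] at this
    omega
  obtain ⟨S1, hS1, hlen⟩ := greedy3 hg hI htop hblk k hcard.le
  set U := Submodule.span K (Set.range (blk D x)) with hU
  have hUV : U ≤ V D g x (k + 2) := by
    rw [hU, Submodule.span_le]
    rintro _ ⟨i, rfl⟩
    exact V_mono D g x (by omega) (blk_mem hg hI x i)
  have hrank : Module.finrank K ((Fin (n + 1) → K) ⧸ U) = k := by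
    have h1 := Submodule.finrank_quotient_add_finrank U
    have h2 : Module.finrank K U = d + 1 := by
      rw [hU, finrank_span_eq_card hblk, Fintype.card_fin]
    rw [h2, Module.finrank_fin_fun] at h1
    omega
  have h3 : Submodule.span K (Set.range fun a => U.mkQ (wv D g x (S1 a))) = ⊤ := by
    apply Submodule.eq_top_of_finrank_eq
    rw [finrank_span_eq_card hS1, Fintype.card_fin, hrank]
  have h4 : (V D g x (k + 2)).map U.mkQ = ⊤ := by
    rw [eq_top_iff, ← h3, Submodule.span_le]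
    rintro _ ⟨a, rfl⟩
    refine ⟨wv D g x (S1 a), wv_mem D g x ?_, rfl⟩
    have := hlen a
    have := a.2
    omega
  have h5 := congrArg (Submodule.comap U.mkQ) h4
  rw [Submodule.comap_map_mkQ, Submodule.comap_top, sup_eq_right.2 hUV] at h5
  exact h5

/-- **The lengths.** -/
theorem length_le3 (ε : Fin (d + 1) ⊕ Fin k ≃ Fin (n + 1)) {D : Fin d → Derivation ℂ K K}
    {g : Fin q → K} (hg : ∀ i, g i ≠ 0) {I0 : Fin (d + 1) → Fin q}
    (hI : bw D (fun j => g (I0 j)) ≠ 0) {x : Fin (n + 1) → K}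
    (htop : ∀ k, x ∈ V D g x k → (∀ l, ∀ y ∈ V D g x k, (fun j => D l (y j)) ∈ V D g x k) →
      V D g x k = ⊤)
    (hblk : LinearIndependent K (blk D x)) {S : Fin k → List (Letter d q)}
    (hS : MinW ε D g x S) (a : Fin k) : (S a).length ≤ k + 1 := by
  by_contra hcon
  push Not at hcon
  apply hS.ne
  refine phi_low hS _ a ?_ fun b _ => wv_mem D g x (Nat.lt_succ_self _)
  have h1 : V D g x (k + 2) ≤ V D g x (S a).length := V_mono D g x (by omega)
  rw [V_top3 ε hg hI htop hblk] at h1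
  exact h1 trivial

/-- the words of all groups -/
theorem exists_data3 {ℓ : Fin q → Form n} (hℓ : ∀ i, ℓ i ≠ 0)
    {x : Fin (n + 1) → K} (hli : LinearIndependent ℂ x) (hdk : d + k = n)
    (σ : Fin (d + 1) → Fin (n + 1)) (hσ : x (σ 0) = 1) {u : Fin e → K}
    {Dt : Fin d → Derivation ℂ K K} {Du : Fin e → Derivation ℂ K K}
    (F : Frame (fun j => x (σ j.succ)) u Dt Du) (hx : ∀ j, Hz Du (x j))
    (γ : Fin G → Fin p → Fin q)
    (hγ : ∀ s, Submodule.span ℂ (Set.range fun j => ℓ (γ s j)) = ⊤) :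
    ∃ (ε : Fin (d + 1) ⊕ Fin k ≃ Fin (n + 1)) (S : Fin G → Fin k → List (Letter d p)),
      (∀ s a, (S s a).length ≤ k + 1) ∧
      (∀ s, 2 * wt (S s) ≤ (k + 1) * (k + 2)) ∧
      ∀ (b : Fin q → ℕ) (M t : ℕ), fm ℓ x γ ε S b M t Dt ≠ 0 ∧
        ∀ E : Fin d → Derivation ℂ K K, fm ℓ x γ ε S b M t E =
          (mtx (fun j => x (σ j.succ)) E).det ^ ((∑ s, wt (S s)) * (M * t)) *
            fm ℓ x γ ε S b M t Dt := by
  classical
  have hlx : ∀ i, lf (ℓ i) x ≠ 0 := fun i => lf_ne_of_li hli (hℓ i)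
  have hD : bw Dt (fun j => x (σ j)) ≠ 0 := by
    rw [Pool.Agent.W930.CG.bw_eq bwa Dt (fun j => x (σ j)) (by rw [hσ]; exact one_ne_zero)]
    have e1 : (Matrix.of fun i j : Fin d => Dt i (x (σ j.succ) / x (σ 0))) = 1 := by
      ext i j
      rw [Matrix.of_apply, hσ, div_one, F.tt i j, Matrix.one_apply]
    rw [e1, Matrix.det_one, mul_one, hσ, one_pow]
    exact one_ne_zero
  let ε : Fin (d + 1) ⊕ Fin k ≃ Fin (n + 1) :=
    finSumFinEquiv.trans (finCongr (by omega))
  have hgr : ∀ s, ∃ I0 : Fin (d + 1) → Fin p, bw Dt (fun j => gr ℓ x (γ s) (I0 j)) ≠ 0 := by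
    intro s
    exact exists_index (ℓ := fun j => ℓ (γ s j)) (hγ s) Dt σ hD
  choose I0 hI0 using hgr
  have hg : ∀ s i, Hz Du (gr ℓ x (γ s) i) := fun s i => Hz.lf hx _
  have hexS : ∀ s, ∃ S : Fin k → List (Letter d p), MinW ε Dt (gr ℓ x (γ s)) x S := fun s =>
    exists_minW3 ε (g := gr ℓ x (γ s)) (fun j => hlx _) (hI0 s) (F.top (hg s) hx hli) (blk_li hD)
  choose S hS using hexS
  refine ⟨ε, S, fun s a => length_le3 ε (g := gr ℓ x (γ s)) (fun j => hlx _) (hI0 s)
    (F.top (hg s) hx hli) (blk_li hD) (hS s) a, fun s => (hS s).le, fun b M t => ⟨?_, fun E => ?_⟩⟩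
  · unfold fm
    refine div_ne_zero (pow_ne_zero _ (Finset.prod_ne_zero_iff.2 fun s _ => ?_))
      (Finset.prod_ne_zero_iff.2 fun i _ => pow_ne_zero _ (hlx i))
    rw [← phi_eq_pw]
    exact (hS s).ne
  · have h1 : ∀ s, pw ε E (gr ℓ x (γ s)) x (S s) =
        (mtx (fun j => x (σ j.succ)) E).det ^ wt (S s) * pw ε Dt (gr ℓ x (γ s)) x (S s) := by
      intro s
      rw [← phi_eq_pw, ← phi_eq_pw, F.phi_wv_eq E (hg s) hx (hS s)]
      rfl
    unfold fm
    rw [Finset.prod_congr rfl fun s _ => h1 s, Finset.prod_mul_distrib, Finset.prod_pow_eq_pow_sum,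
      mul_pow, ← pow_mul, mul_div_assoc]

end Pool.Agent.K3h50.MF
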