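import Pool.Agent.K3h50.MF.Core

/-!
Pairs with a linear system with many powerful members, whose map is not generically finite, and
sections along the fibres; log canonical arrangements along the fibres.
-/

set_option autoImplicit false

open FF Module Pool.Agent.W603.LV Pool.Agent.W602.GT Pool.Agent.TH585.SV
open Pool.Agent.K3h50.MW Pool.Agent.Y191 Pool.Agent.Y172

namespace Pool.Agent.K3h50.MF

variable {d e k n q G lam : ℕ} {K : Type} [Field K] [Algebra ℂ K]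

/-- **Sections along the fibres.** -/
theorem pm_fib (hdk : d + k = n) (hG1 : 1 ≤ G) {β t : Fin q → ℚ}
    (ht0 : ∀ i, 0 ≤ t i) (ht1 : ∀ i, t i ≤ 1) (hb : ∑ i, β i * t i = n + 1)
    {c s : ℝ} (hc : 0 ≤ c) (hs : bd d n c ≤ s)
    (hK : Algebra.trdeg ℂ K = (d + e : ℕ)) {V : Submodule ℂ K} (hV : Module.finrank ℂ V = n + 1)
    (hL : Algebra.trdeg ℂ (rf V) = d)
    {φ : Fin q → K} (hφ0 : ∀ i, φ i ≠ 0) (hφV : ∀ i, φ i ∈ V) (hβ : WtsV V φ β)
    {A : Fin G → Finset (Fin q)} (hA : SprV V φ A c)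
    {X : Set (Place ℂ K)} {δ₁ δ₂ δ : Place ℂ K → ℝ} (hδ₁ : ∀ P ∈ X, 0 ≤ δ₁ P)
    (hδ : ∀ P ∈ X, δ₁ P + δ₂ P ≤ δ P) (h : Pow (d + e) V φ t X δ₁ s)
    {m : ℕ} (hm : 0 < m) {θ : Fin (lam + 1) → (Fin e → Derivation (rf V) K K) → K}
    (hθ : ∀ b, FibSec (d + e) m X δ₂ (rf V) (θ b))
    (hne : ∃ G, θ 0 G ≠ 0 ∧
      AlgebraicIndependent (rf V) (fun i : Fin lam => θ i.succ G / θ 0 G)) :
    KodairaGe (d + e) X δ lam ∧
      (bd d n c < s → (∀ i, t i < 1) → KodairaGe (d + e) X δ (d + lam)) := by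
  classical
  obtain ⟨x, σ, u, Dt, Du, F, hσ, hHz, hxL, hind, W, M, hW, hM, key⟩ :=
    core3 hdk hG1 ht0 hb hc hs hK hV hL hφ0 hφV hβ hA hδ₁ h
  constructor
  · obtain ⟨f, hf, hest⟩ := key 0 1 le_rfl fun i => by
      have : (t i : ℝ) ≤ 1 := by exact_mod_cast ht1 i
      linarith
    obtain ⟨ω, h1, D, h2, h3⟩ := F.pairs (κ := 0) (w := fun _ => 1) hHz (fun j => hxL _) hδ hm
      (fun b => (hθ b).1) (fun P hPX hPd G hG b => (hθ b).2 P hPX hPd G hG) hne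
      (M := W * (M * 1)) (Nat.mul_pos hW (Nat.mul_pos hM one_pos)) hf rfl
      (by
        rw [algebraicIndependent_empty_type_iff]
        exact (algebraMap ℂ K).injective) (fun _ => one_mem _)
      (fun P hPX hPd E hE _ => by
        obtain ⟨l, -, hl⟩ := hest P hPX hPd
        obtain ⟨z, hz1, hz2⟩ := hl E hE
        refine ⟨z, by rw [mul_one f]; exact hz1, le_trans (le_of_eq ?_) hz2⟩
        ring)
    have e0 : 0 + lam + 1 = lam + 1 := by omega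
    refine ⟨W * (M * 1) * m, Nat.mul_pos (Nat.mul_pos hW (Nat.mul_pos hM one_pos)) hm,
      fun j => ω (Fin.cast e0.symm j), fun j => h1 _, D, h2, ?_⟩
    have hl : lam = 0 + lam := by omega
    have h4 := h3.comp (Fin.cast hl) (Fin.cast_injective hl)
    exact h4
  · intro hs' ht
    obtain ⟨κ0, hκ0, hκ1⟩ : ∃ κ0 : ℝ, 0 < κ0 ∧ ∀ i, κ0 ≤ 1 - (t i : ℝ) := by
      rcases Nat.eq_zero_or_pos q with h0 | h0
      · subst h0
        exact ⟨1, one_pos, fun i => i.elim0⟩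
      · obtain ⟨i0, -, hmin⟩ := Finset.exists_min_image Finset.univ (fun i => 1 - (t i : ℝ))
          ⟨⟨0, h0⟩, Finset.mem_univ _⟩
        refine ⟨1 - (t i0 : ℝ), ?_, fun i => hmin i (Finset.mem_univ _)⟩
        have : (t i0 : ℝ) < 1 := by exact_mod_cast ht i0
        linarith
    obtain ⟨Θ, hΘ⟩ : ∃ Θ : ℝ, Θ = 1 - Pool.Agent.K3h50.MW.bd d n c / s := ⟨_, rfl⟩
    rw [← hΘ] at key
    have hbd : 0 < Pool.Agent.K3h50.MW.bd d n c := by
      unfold Pool.Agent.K3h50.MW.bd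
      have hkr : (n : ℝ) - d = k := by
        rw [← hdk]
        push_cast
        ring
      rw [hkr]
      positivity
    have hΘ0 : 0 < Θ := by
      rw [hΘ, sub_pos, div_lt_one (hbd.trans hs')]
      exact hs'
    obtain ⟨t0, ht0'⟩ := exists_nat_gt (1 / (Θ * κ0))
    have ht1' : 1 ≤ (t0 : ℝ) * (Θ * κ0) := by
      rw [div_lt_iff₀ (mul_pos hΘ0 hκ0)] at ht0'
      exact ht0'.le
    have htpos : 0 < t0 := by
      rcases Nat.eq_zero_or_pos t0 with h0 | h0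
      · rw [h0, Nat.cast_zero, zero_mul] at ht1'
        exact absurd ht1' (by norm_num)
      · exact h0
    obtain ⟨f, hf, hest⟩ := key κ0 t0 hκ0.le hκ1
    obtain ⟨w, hw⟩ : ∃ w : Fin (d + 1) → K, w = fun j => x (σ j) := ⟨_, rfl⟩
    obtain ⟨ω, h1, D, h2, h3⟩ := F.pairs (κ := d) (w := w) hHz (fun j => hxL _) hδ hm
      (fun b => (hθ b).1) (fun P hPX hPd G hG b => (hθ b).2 P hPX hPd G hG) hne
      (M := W * (M * t0)) (Nat.mul_pos hW (Nat.mul_pos hM htpos)) hf (by rw [hw]; exact hσ)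
      (by rw [hw]; exact hind) (fun j => by rw [hw]; exact hxL _)
      (fun P hPX hPd E hE a => by
        obtain ⟨l, hl1, hl⟩ := hest P hPX hPd
        obtain ⟨z, hz1, hz2⟩ := hl E hE
        have h5 := hz1.mul (hl1 (σ a))
        rw [mul_assoc] at h5
        refine ⟨z + -(l : ℤ), by rw [hw]; exact h5, ?_⟩
        have h6 : (l : ℝ) ≤ (t0 : ℝ) * (Θ * κ0 * l) := by
          have h7 : (0 : ℝ) ≤ l := Nat.cast_nonneg _
          nlinarith
        push_cast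
        push_cast at hz2
        linarith)
    exact ⟨W * (M * t0) * m, Nat.mul_pos (Nat.mul_pos hW (Nat.mul_pos hM htpos)) hm, ω, h1, D, h2,
      h3⟩

/-- the relative transcendence degree -/
theorem trdeg_rel {L : IntermediateField ℂ K} (hK : Algebra.trdeg ℂ K = (d + e : ℕ))
    (htr : Algebra.trdeg ℂ L = d) : Algebra.trdeg L K = e := by
  have h1 := trdeg_add_eq ℂ L (A := K)
  rw [htr, hK] at h1
  push_cast at h1
  rw [add_comm, add_comm (d : Cardinal)] at h1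
  exact (Cardinal.add_right_inj_of_lt_aleph0 (Cardinal.natCast_lt_aleph0 (n := d))).mp h1

/-- quotients of members are units at the places which are trivial on the field of quotients -/
theorem ord_triv {V : Submodule ℂ K} {P : Place ℂ K} (h : ∀ f ∈ rf V, f ≠ 0 → P.ord f = 0)
    {f g : K} (hf : f ∈ V) (hg : g ∈ V) (hf0 : f ≠ 0) (hg0 : g ≠ 0) : P.ord f = P.ord g := by
  have h1 : f / g ∈ rf V := IntermediateField.subset_adjoin ℂ _ ⟨f, hf, g, hg, rfl⟩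
  have h2 := h _ h1 (div_ne_zero hf0 hg0)
  rw [P.ord_div hf0 hg0] at h2
  linarith

section

variable {K' : Type} [Field K'] [Algebra ℂ K'] [Algebra K K'] [IsScalarTower ℂ K K']
  [FiniteDimensional K K'] {cc : ℕ} {r s' : Fin cc → ℕ}
  {B : ∀ j, Fin (s' j) → Fin (r j + 1) → K'} {U : (Σ j, Fin (r j)) → K'}
  {w : ∀ j, Fin (s' j) → ℚ}

/-- **Log canonical arrangements along the fibres.** -/
theorem pm_lc (hdk : d + k = n) (hG1 : 1 ≤ G) {β t : Fin q → ℚ}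
    (ht0 : ∀ i, 0 ≤ t i) (ht1 : ∀ i, t i ≤ 1) (hb : ∑ i, β i * t i = n + 1)
    {c s : ℝ} (hc : 0 ≤ c) (hs : bd d n c ≤ s)
    (hK : Algebra.trdeg ℂ K = (d + e : ℕ)) {V : Submodule ℂ K} (hV : Module.finrank ℂ V = n + 1)
    (hL : Algebra.trdeg ℂ (rf V) = d)
    {φ : Fin q → K} (hφ0 : ∀ i, φ i ≠ 0) (hφV : ∀ i, φ i ∈ V) (hβ : WtsV V φ β)
    {A : Fin G → Finset (Fin q)} (hA : SprV V φ A c)
    {X : Set (Place ℂ K)} {δ : Place ℂ K → ℝ} (hδ : ∀ P ∈ X, 0 ≤ δ P)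
    (h : Pow (d + e) V φ t X δ s)
    (hB : LcArr (upF K' (rf V)) B w) (ρ : (Σ j, Fin (r j)) ≃ Fin e)
    (hu : IsTranscendenceBasis (upF K' (rf V)) U)
    (hw0 : ∀ j i, 0 ≤ w j i) (hws : ∀ j, (r j + 1 : ℚ) ≤ ∑ i, w j i)
    {κ : Fin lam → Σ j, Fin (r j)} (hκ : Function.Injective κ)
    (hκs : ∀ i, (r (κ i).1 + 1 : ℚ) < ∑ i', w (κ i).1 i') (hH : LcHor (rf V) B U w X δ) :
    KodairaGe (d + e) X δ lam ∧
      (bd d n c < s → (∀ i, t i < 1) → KodairaGe (d + e) X δ (d + lam)) := by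
  classical
  obtain ⟨δ₁, δ₂, h1, h2, h3, h4, h5⟩ := split_bd (rf V) hδ
  obtain ⟨M, hM, θ, hθ, hne⟩ := lc_low (N := d + e) (trdeg_rel hK hL) hB ρ hu hw0 hws hκ hκs
    (X := X) (δ := δ₂) h3 (fun P hP htr' Q ε hQ c' e' ho => by
      rw [h4 P htr']
      exact hH P hP htr' Q ε hQ c' e' ho)
  refine pm_fib hdk hG1 ht0 ht1 hb hc hs hK hV hL hφ0 hφV hβ hA h2 h1 ?_ hM hθ hne
  intro P hP hPd a ha hex i hi
  by_cases htriv : ∀ f ∈ rf V, f ≠ 0 → P.ord f = 0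
  · exfalso
    obtain ⟨f, hfV, hf0, hfa⟩ := hex
    apply hi
    rw [ord_triv htriv (hφV i) hfV (hφ0 i) hf0, hfa]
  · rw [h5 P htriv]
    exact h P hP hPd a ha hex i hi

end

end Pool.Agent.K3h50.MF
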